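import Pool.Agent.W5h51.KH.Main
import Pool.Agent.TH404.AK.Sdc3

/-!
# MP_b1773a_an: Hausdorff dimension of Kakeya sets, with the exponent of chains of planes
-/

set_option autoImplicit false

open MeasureTheory

namespace Pool.Agent.Results.MP_b1773a_an.ChainHausdorff

/-- Let `n ≥ 1` and let `U ⊆ S^(n-1)` be a set of directions of positive outer surface measure. Every
set `K ⊆ ℝ^n` which contains a nondegenerate segment in every direction of `U` (in particular every
Kakeya set) has Hausdorff dimension at least `1 + (n - 1) / 1.669587`. -/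
theorem result (n : ℕ) (hn : 1 ≤ n) (U : Set (Metric.sphere (0 : EuclideanSpace ℝ (Fin n)) 1))
    (hU : (volume : Measure (EuclideanSpace ℝ (Fin n))).toSphere U ≠ 0)
    (K : Set (EuclideanSpace ℝ (Fin n)))
    (hK : ∀ e ∈ U, ∃ (a : EuclideanSpace ℝ (Fin n)) (r : ℝ), 0 < r ∧
      ∀ t ∈ Set.Icc (0 : ℝ) r, a + t • (e : EuclideanSpace ℝ (Fin n)) ∈ K) :
    ENNReal.ofReal (1 + ((n : ℝ) - 1) / 1.669587) ≤ dimH K := by
  have hsd : Pool.Agent.W46.KK.SD (1669587 / 1000000) := by
    obtain ⟨S, h⟩ := Pool.Agent.TH404.AK.sdc3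
    exact ⟨S, h⟩
  obtain ⟨S, hS⟩ := hsd
  obtain ⟨d, rfl⟩ : ∃ d, n = d + 1 := ⟨n - 1, by omega⟩
  have e1 : (((d + 1 : ℕ) : ℝ) - 1) = d := by push_cast; ring
  have e2 : (1.669587 : ℝ) = 1669587 / 1000000 := by norm_num
  rw [e1, e2]
  exact Pool.Agent.W5h51.KH.mainH hS (by norm_num) d U K hK hU

end Pool.Agent.Results.MP_b1773a_an.ChainHausdorff
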