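import Pool.Agent.W6h19.Kk.Rect

set_option autoImplicit false

/-!
# MP_b1773a: null Kakeya sets are compressed at every point, and have no rectifiable part

Let `K ⊆ ℝ^n` have measure zero (for instance, `dim_H K < n`).

1. *Rectifiable families.*  Let `ℒ` be a set of lines, given as pairs (direction, point), which is
   covered by countably many Lipschitz images of subsets of `ℝ^(n-1)`; the direction need not be the
   parameter, and the position need not be a Lipschitz function of the direction.  Then the directions
   of the lines of `ℒ` which meet `K` in positive length form a null set of the sphere.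
2. *Compression at every point.*  Let `ℓ_e`, `e ∈ S`, be lines in the directions of an arbitrary set `S`
   of unit vectors which meet `K` in positive length.  For almost every `e ∈ S`, every point `y` of the
   whole line `ℓ_e` has two properties: there are `e' ∈ S` arbitrarily near to `e` such that the distance
   of `y` and `ℓ_e'` is at most `ε |e' - e|`, for every `ε > 0` (`Near`), and there are such `e'` for
   which this distance is at least `M |e' - e|`, for every `M` (`Far`).
3. Hence: if `K` meets lines `ℓ_e`, `e ∈ S`, in positive length, where `S` has positive outer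
   surface measure, and on each of these lines there is a point at which one of the two properties
   fails (for instance: at one height the lines are at distance at least `c |e' - e|`), then `K` has
   positive measure.  The part of the line which belongs to `K` may be far away from this point.

Proof: lines which are Lipschitz functions of any parameter `z` give a pencil of Lipschitz maps
`X + t V`.  By Rademacher's theorem and Fubini's theorem the lines meet `K` in length zero for almost
all `z` with `det V'(z) ≠ 0`, since `det (X' + t V')` is a polynomial in `t` with leading coefficient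
`det V'`, and by Sard's lemma the other `z` give a null set of directions.  A family for which one of
the two properties fails is a countable union of families of this kind: the direction is a Lipschitz
function of the point in some hyperplane, or conversely.
-/

open MeasureTheory Set Metric
open scoped ENNReal NNReal

namespace Pool.Agent.Results.MP_b1773a_an.CompressionEverywhere

/-- Euclidean space `ℝ^n`. -/
abbrev E (n : ℕ) : Type := EuclideanSpace ℝ (Fin n)

/-- The surface measure on the unit sphere. -/
noncomputable def surf (n : ℕ) : Measure (sphere (0 : E n) 1) := (volume : Measure (E n)).toSphere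

/-- The line `a + ℝ e` meets `K` in a set of positive (outer) length. -/
def MeetsLong {n : ℕ} (K : Set (E n)) (e : sphere (0 : E n) 1) (a : E n) : Prop :=
  volume {s : ℝ | a + s • (e : E n) ∈ K} ≠ 0

/-- A set of lines, given by pairs (direction, point on the line), is rectifiable: it is covered by
the images of subsets of `ℝ^(n-1)` under countably many Lipschitz maps. -/
def RectifiableFamily {n : ℕ} (ℒ : Set (sphere (0 : E n) 1 × E n)) : Prop :=
  ∃ (Z : ℕ → Set (E (n - 1))) (f : ℕ → E (n - 1) → sphere (0 : E n) 1 × E n),
    (∀ j, ∃ k : ℝ≥0, LipschitzOnWith k (f j) (Z j)) ∧ ℒ ⊆ ⋃ j, f j '' Z j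

/-- For the lines `ℓ_e = x e + ℝ e`: there are `e' ∈ S` arbitrarily near to `e` such that the
distance of the point `y` and `ℓ_e'` is less than `ε |e' - e|`, `ε` being arbitrary. -/
def Near {n : ℕ} (S : Set (sphere (0 : E n) 1)) (x : sphere (0 : E n) 1 → E n)
    (e : sphere (0 : E n) 1) (y : E n) : Prop :=
  ∀ ε > 0, ∃ e' ∈ S, e' ≠ e ∧ ‖(e' : E n) - e‖ < ε ∧
    ∃ s : ℝ, ‖y - (x e' + s • (e' : E n))‖ < ε * ‖(e' : E n) - e‖

/-- For the lines `ℓ_e = x e + ℝ e`: there are `e' ∈ S` arbitrarily near to `e` such that every
point of `ℓ_e'` has distance more than `M |e' - e|` from the point `y`, `M` being arbitrary. -/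
def Far {n : ℕ} (S : Set (sphere (0 : E n) 1)) (x : sphere (0 : E n) 1 → E n)
    (e : sphere (0 : E n) 1) (y : E n) : Prop :=
  ∀ M > 0, ∃ e' ∈ S, e' ≠ e ∧ ‖(e' : E n) - e‖ < 1 / M ∧
    ∀ s : ℝ, M * ‖(e' : E n) - e‖ < ‖y - (x e' + s • (e' : E n))‖

/-- Both properties hold at all points of the line number `e`. -/
def CompressedAlong {n : ℕ} (S : Set (sphere (0 : E n) 1)) (x : sphere (0 : E n) 1 → E n)
    (e : sphere (0 : E n) 1) : Prop :=
  ∀ s : ℝ, Near S x e (x e + s • (e : E n)) ∧ Far S x e (x e + s • (e : E n))

/-- Statement 1: null sets and rectifiable families of lines in `ℝ^n`. -/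
def RectifiableNull (n : ℕ) : Prop :=
  ∀ K : Set (E n), volume K = 0 → ∀ ℒ : Set (sphere (0 : E n) 1 × E n),
    RectifiableFamily ℒ → surf n {e | ∃ a, (e, a) ∈ ℒ ∧ MeetsLong K e a} = 0

/-- Statement 2: a null set in `ℝ^n` is compressed at every point of almost every line. -/
def CompressedAE (n : ℕ) : Prop :=
  ∀ K : Set (E n), volume K = 0 → ∀ (S : Set (sphere (0 : E n) 1))
    (x : sphere (0 : E n) 1 → E n), (∀ e ∈ S, MeetsLong K e (x e)) →
    surf n {e | e ∈ S ∧ ¬ CompressedAlong S x e} = 0

/-- Statement 3: families of lines which are not compressed have positive measure. -/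
def PositiveMeasure (n : ℕ) : Prop :=
  ∀ (K : Set (E n)) (S : Set (sphere (0 : E n) 1)) (x : sphere (0 : E n) 1 → E n),
    surf n S ≠ 0 → (∀ e ∈ S, MeetsLong K e (x e)) → (∀ e ∈ S, ¬ CompressedAlong S x e) →
    0 < volume K

/-- **Null Kakeya sets are compressed at every point and have no rectifiable part.** -/
theorem result : ∀ n : ℕ, RectifiableNull n ∧ CompressedAE n ∧ PositiveMeasure n := by
  intro n
  have h2 : CompressedAE n := by
    intro K hK S x hpos
    have hn := Pool.Agent.W6h19.Kk.near_ae (volume : Measure (E n)) hK S x hpos
    have hf := Pool.Agent.W6h19.Kk.far_ae (volume : Measure (E n)) hK S x hpos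
    refine measure_mono_null ?_ (measure_union_null hn hf)
    rintro e ⟨heS, hfail⟩
    by_cases h : ∀ s₀, Pool.Agent.W6h19.Kk.Near S x e s₀
    · refine Or.inr ⟨heS, fun h' => hfail fun s => ⟨h s, h' s⟩⟩
    · exact Or.inl ⟨heS, h⟩
  refine ⟨?_, h2, ?_⟩
  · intro K hK ℒ hL
    rcases n with _ | m
    · have : IsEmpty (sphere (0 : E 0) 1) := ⟨fun e => by
        have h1 : ‖(e : E 0)‖ = 1 := by simp
        have h2 : (e : E 0) = 0 := Subsingleton.elim _ _
        rw [h2, norm_zero] at h1
        norm_num at h1⟩
      rw [Set.eq_empty_of_isEmpty {e : sphere (0 : E 0) 1 | ∃ a, (e, a) ∈ ℒ ∧ MeetsLong K e a}]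
      exact measure_empty
    · obtain ⟨Z, f, hf, hcov⟩ := hL
      refine measure_mono_null ?_ (measure_iUnion_null fun j => by
        obtain ⟨k, hk⟩ := hf j
        exact Pool.Agent.W6h19.Kk.rect_piece (m := m) hK hk)
      rintro e ⟨a, hea, hpos⟩
      obtain ⟨j, w, hw, hfw⟩ := mem_iUnion.1 (hcov hea)
      refine mem_iUnion.2 ⟨j, w, hw, by rw [hfw], ?_⟩
      rw [hfw]
      exact hpos
  · intro K S x hS hpos hfail
    rw [pos_iff_ne_zero]
    intro hK
    refine hS (measure_mono_null ?_ (h2 K hK S x hpos))
    intro e he
    exact ⟨he, hfail e he⟩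

end Pool.Agent.Results.MP_b1773a_an.CompressionEverywhere
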