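import Mathlib
import Pool.Agent.W99.KA.Auto

set_option autoImplicit false

/-!
# Kakeya sets are not lattice-porous; automatic and integral self-affine Kakeya sets

* Let `L_k` be real `n × n` matrices with `‖h L_k‖ → ∞` for every non-zero integer row vector `h`.  If
  for infinitely many `k` some translate of `L_k K` misses a fixed periodic open set `G + ℤⁿ`, then every
  line, except for lines whose direction lies in a cone of Hausdorff dimension at most `n - 1`, meets
  `K` in length zero (and in a set carrying no non-zero finite measure with Fourier transform tending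
  to zero).
* Hence, for a Kakeya set `K`, the sets `L_k K` become dense modulo `ℤⁿ`; and for every `ε > 0` and
  all small `r`, the set `K` meets the union of the balls of radius `ε r` around the points of any
  isometric copy of the lattice `r ℤⁿ`.
* If `A` has no eigenvalue which is zero or a root of unity, a closed set with finite `A`-kernel (the
  automatic sets; among them all integral self-affine sets and all integral graph-directed self-affine
  sets) either has an interior point or has the property above.  In particular the Kakeya conjecture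
  holds for compact sets with finite `A`-kernel in every dimension, in the strong form that they have
  interior points.
-/

namespace Pool.Agent.Results.MP_b1773a_an.LatticePorosity

open MeasureTheory Set Filter Topology Matrix
open scoped ENNReal NNReal
open Pool.Agent.W99

noncomputable section

/-- `ℝⁿ` -/
abbrev Euc (n : ℕ) := EuclideanSpace ℝ (Fin n)

variable {n : ℕ}

/-- the action `x ↦ L x` of a real matrix on `ℝⁿ` -/
def lin (L : Matrix (Fin n) (Fin n) ℝ) (x : Euc n) : Euc n := WithLp.toLp 2 (L *ᵥ (WithLp.ofLp x))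

/-- the action `x ↦ M x` of an integer matrix on `ℝⁿ` -/
def act (M : Matrix (Fin n) (Fin n) ℤ) (x : Euc n) : Euc n := lin (M.map (Int.cast : ℤ → ℝ)) x

/-- an integer vector, as a point of `ℝⁿ` -/
def ivec (z : Fin n → ℤ) : Euc n := WithLp.toLp 2 (fun i => (z i : ℝ))

/-- Kakeya sets: compact sets containing a unit line segment in every direction -/
def IsKakeya (K : Set (Euc n)) : Prop :=
  IsCompact K ∧ ∀ ω : Euc n, ‖ω‖ = 1 → ∃ a : Euc n, ∀ t ∈ Icc (0:ℝ) 1, a + t • ω ∈ K

/-- for every non-zero integer row vector `h`, the row vectors `h L_k` tend to infinity -/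
def RowsEscape (L : ℕ → Matrix (Fin n) (Fin n) ℝ) : Prop :=
  ∀ h : Fin n → ℤ, h ≠ 0 → Tendsto (fun k => ‖(fun i => (h i : ℝ)) ᵥ* L k‖) atTop atTop

/-- `A` is invertible over `ℚ` and has no eigenvalue which is a root of unity (for instance: all
eigenvalues of `A` have modulus larger than one) -/
def Ergodic (A : Matrix (Fin n) (Fin n) ℤ) : Prop := A.det ≠ 0 ∧ ∀ m : ℕ, 1 ≤ m → (A ^ m - 1).det ≠ 0

/-- every line parallel to `v` meets `K` in length zero, and the intersection carries no non-zero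
finite measure whose Fourier transform tends to zero at infinity -/
def ThinAlong (K : Set (Euc n)) (v : Euc n) : Prop :=
  ∀ a : Euc n, volume {s : ℝ | a + s • v ∈ K} = 0 ∧
    ∀ (ν : Measure ℝ) [IsFiniteMeasure ν], Tendsto (charFun ν) (cocompact ℝ) (𝓝 0) →
      ν {s : ℝ | a + s • v ∉ K} = 0 → ν = 0

/-- `ThinAlong` holds for all directions outside a cone of Hausdorff dimension at most `n - 1` -/
def ThinOffCone (K : Set (Euc n)) : Prop :=
  ∃ X : Set (Euc n), (∀ (c : ℝ), ∀ v ∈ X, c • v ∈ X) ∧ dimH X + 1 ≤ n ∧ ∀ v, v ∉ X → ThinAlong K v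

/-- the part of `A ^ k K` in the unit cube with corner `z`, translated to the cube at the origin -/
def piece (A : Matrix (Fin n) (Fin n) ℤ) (K : Set (Euc n)) (k : ℕ) (z : Fin n → ℤ) : Set (Euc n) :=
  {y | (∀ i, y i ∈ Icc (0:ℝ) 1) ∧ ∃ x ∈ K, act (A ^ k) x = y + ivec z}

/-- `K` has a finite `A`-kernel: there are only finitely many different pieces -/
def FiniteKernel (A : Matrix (Fin n) (Fin n) ℤ) (K : Set (Euc n)) : Prop :=
  (range fun p : ℕ × (Fin n → ℤ) => piece A K p.1 p.2).Finite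

/-- a set of `ℝⁿ` in coordinates -/
def cd (K : Set (Euc n)) : Set (Fin n → ℝ) := {x | WithLp.toLp 2 x ∈ K}

lemma cd_open {G : Set (Euc n)} (hG : IsOpen G) : IsOpen (cd G) :=
  hG.preimage (PiLp.continuous_toLp 2 _)

lemma cd_closed {G : Set (Euc n)} (hG : IsClosed G) : IsClosed (cd G) :=
  hG.preimage (PiLp.continuous_toLp 2 _)

lemma thin_of (K : Set (Euc n)) (X : Set (Fin n → ℝ)) (hc : ∀ (c : ℝ), ∀ v ∈ X, c • v ∈ X)
    (hd : dimH X + 1 ≤ n)
    (h : ∀ v, v ∉ X → ∀ a : Fin n → ℝ, volume {s : ℝ | a + s • v ∈ cd K} = 0 ∧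
        ∀ (ν : Measure ℝ) [IsFiniteMeasure ν], Tendsto (charFun ν) (cocompact ℝ) (𝓝 0) →
          ν {s : ℝ | a + s • v ∉ cd K} = 0 → ν = 0) : ThinOffCone K := by
  refine ⟨{v | WithLp.ofLp v ∈ X}, fun c v hv => ?_, ?_, fun v hv a => ?_⟩
  · exact hc c _ hv
  · have h1 : {v : Euc n | WithLp.ofLp v ∈ X} = (EuclideanSpace.equiv (Fin n) ℝ) ⁻¹' X := rfl
    rw [h1, ContinuousLinearEquiv.dimH_preimage]
    exact hd
  · exact h _ hv (WithLp.ofLp a)

theorem porosity (hn : 1 ≤ n) (L : ℕ → Matrix (Fin n) (Fin n) ℝ) (hL : RowsEscape L) (b : ℕ → Euc n)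
    (G : Set (Euc n)) (hG : IsOpen G) (hne : G.Nonempty) (K : Set (Euc n))
    (hK : ∃ᶠ k in atTop, ∀ x ∈ K, ∀ z, lin (L k) x + b k - ivec z ∉ G) : ThinOffCone K := by
  obtain ⟨g, hg⟩ := hne
  obtain ⟨X, h1, h2, h3⟩ := KA.porous hn L hL (fun k => WithLp.ofLp (b k)) (cd_open hG)
    ⟨WithLp.ofLp g, hg⟩ (cd K) (hK.mono fun k hk x hx z => hk (WithLp.toLp 2 x) hx z)
  exact thin_of K X h1 h2 h3

/-- some unit vector lies outside the cone -/
theorem thin_unit (hn : 1 ≤ n) {K : Set (Euc n)} (hK : ThinOffCone K) :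
    ∃ ω : Euc n, ‖ω‖ = 1 ∧ ThinAlong K ω := by
  obtain ⟨X, hXc, hXd, hX⟩ := hK
  have hne : ∃ v : Euc n, v ∉ X := by
    by_contra hcon
    push Not at hcon
    have h1 : X = univ := eq_univ_of_forall hcon
    rw [h1, Real.dimH_univ_eq_finrank, finrank_euclideanSpace, Fintype.card_fin] at hXd
    have h2 : n + 1 ≤ n := by exact_mod_cast hXd
    omega
  obtain ⟨v, hv⟩ := hne
  by_cases hX0 : X = ∅
  · refine ⟨EuclideanSpace.single ⟨0, hn⟩ 1, by simp, hX _ (by rw [hX0]; exact notMem_empty _)⟩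
  · have hv0 : v ≠ 0 := by
      rintro rfl
      obtain ⟨w, hw⟩ := nonempty_iff_ne_empty.2 hX0
      have := hXc 0 w hw
      rw [zero_smul] at this
      exact hv this
    have hn0 : ‖v‖ ≠ 0 := norm_ne_zero_iff.2 hv0
    refine ⟨‖v‖⁻¹ • v, by rw [norm_smul, norm_inv, norm_norm, inv_mul_cancel₀ hn0], hX _ fun hcon => ?_⟩
    have h1 := hXc ‖v‖ _ hcon
    rw [smul_smul, mul_inv_cancel₀ hn0, one_smul] at h1
    exact hv h1

/-- such a set is not a Kakeya set -/
theorem not_kakeya (hn : 1 ≤ n) {K : Set (Euc n)} (hK : ThinOffCone K) : ¬ IsKakeya K := by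
  intro hk
  obtain ⟨ω, hω, hthin⟩ := thin_unit hn hK
  obtain ⟨a, ha⟩ := hk.2 ω hω
  have h1 := (hthin a).1
  have h2 : volume (Icc (0:ℝ) 1) ≤ volume {s : ℝ | a + s • ω ∈ K} := measure_mono fun s hs => ha s hs
  rw [h1, Real.volume_Icc] at h2
  simp at h2

theorem dense_mod (hn : 1 ≤ n) (L : ℕ → Matrix (Fin n) (Fin n) ℝ) (hL : RowsEscape L) (b : ℕ → Euc n)
    (G : Set (Euc n)) (hG : IsOpen G) (hne : G.Nonempty) (K : Set (Euc n)) (hK : IsKakeya K) :
    ∀ᶠ k in atTop, ∃ x ∈ K, ∃ z, lin (L k) x + b k - ivec z ∈ G := by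
  by_contra hcon
  refine not_kakeya hn (porosity hn L hL b G hG hne K ?_) hK
  rw [not_eventually] at hcon
  refine hcon.mono fun k hk x hx z hz => hk ⟨x, hx, z, hz⟩

lemma lin_add (L : Matrix (Fin n) (Fin n) ℝ) (x y : Euc n) : lin L (x + y) = lin L x + lin L y := by
  unfold lin
  rw [WithLp.ofLp_add, Matrix.mulVec_add, WithLp.toLp_add]

lemma lin_smul (L : Matrix (Fin n) (Fin n) ℝ) (c : ℝ) (x : Euc n) : lin L (c • x) = c • lin L x := by
  unfold lin
  rw [WithLp.ofLp_smul, Matrix.mulVec_smul, WithLp.toLp_smul]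

lemma lin_norm {T : Matrix (Fin n) (Fin n) ℝ} (hT : T ∈ Matrix.orthogonalGroup (Fin n) ℝ) (x : Euc n) :
    ‖lin T x‖ = ‖x‖ := by
  have h1 : ‖lin T x‖ ^ 2 = ‖x‖ ^ 2 := by
    rw [EuclideanSpace.real_norm_sq_eq, EuclideanSpace.real_norm_sq_eq]
    have h2 : ∀ w : Fin n → ℝ, ∑ i, w i ^ 2 = w ⬝ᵥ w := fun w => by
      unfold dotProduct
      exact Finset.sum_congr rfl fun i _ => sq _
    have h3 : ∑ i, (lin T x) i ^ 2 = (T *ᵥ (WithLp.ofLp x)) ⬝ᵥ (T *ᵥ (WithLp.ofLp x)) := h2 _
    have h4 : ∑ i, x i ^ 2 = (WithLp.ofLp x) ⬝ᵥ (WithLp.ofLp x) := h2 _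
    rw [h3, h4, Matrix.dotProduct_mulVec, Matrix.vecMul_mulVec]
    rw [Matrix.mem_orthogonalGroup_iff'] at hT
    have hT' : Tᵀ * T = 1 := hT
    rw [hT', Matrix.vecMul_one]
  exact (sq_eq_sq₀ (norm_nonneg _) (norm_nonneg _)).1 h1

/-- copies of small lattices -/
theorem lattice_copies (hn : 1 ≤ n) (K : Set (Euc n)) (hK : IsKakeya K) (ε : ℝ) (hε : 0 < ε) :
    ∃ r₀ : ℝ, 0 < r₀ ∧ ∀ r : ℝ, 0 < r → r < r₀ → ∀ T ∈ Matrix.orthogonalGroup (Fin n) ℝ, ∀ a : Euc n,
      ∃ x ∈ K, ∃ z : Fin n → ℤ, dist x (a + r • lin T (ivec z)) < ε * r := by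
  by_contra hcon
  push Not at hcon
  have hseq : ∀ k : ℕ, ∃ r : ℝ, 0 < r ∧ r < 1 / ((k : ℝ) + 1) ∧ ∃ T ∈ Matrix.orthogonalGroup (Fin n) ℝ,
      ∃ a : Euc n, ∀ x ∈ K, ∀ z : Fin n → ℤ, ε * r ≤ dist x (a + r • lin T (ivec z)) := by
    intro k
    obtain ⟨r, h1, h2, T, hT, a, h3⟩ := hcon (1 / ((k : ℝ) + 1)) (by positivity)
    exact ⟨r, h1, h2, T, hT, a, h3⟩
  choose r hr0 hr1 T hT a ha using hseq
  have hTT : ∀ k, (T k)ᵀ * T k = 1 := fun k => by
    have := hT k
    rw [Matrix.mem_orthogonalGroup_iff'] at this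
    exact this
  have hTT' : ∀ k, T k * (T k)ᵀ = 1 := fun k => by
    have := hT k
    rw [Matrix.mem_orthogonalGroup_iff] at this
    exact this
  set L : ℕ → Matrix (Fin n) (Fin n) ℝ := fun k => (r k)⁻¹ • (T k)ᵀ with hL
  have hesc : RowsEscape L := by
    intro h h0
    have hn0 : (0:ℝ) < n := by exact_mod_cast hn
    have hlow : ∀ k, (r k)⁻¹ * (Real.sqrt n)⁻¹ ≤ ‖(fun i => (h i : ℝ)) ᵥ* L k‖ := by
      intro k
      have h1 : (fun i => (h i : ℝ)) ᵥ* L k = (r k)⁻¹ • ((fun i => (h i : ℝ)) ᵥ* (T k)ᵀ) := by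
        rw [hL]
        exact Matrix.vecMul_smul _ _ _
      rw [h1, norm_smul, Real.norm_of_nonneg (inv_nonneg.2 (hr0 k).le)]
      refine mul_le_mul_of_nonneg_left ?_ (inv_nonneg.2 (hr0 k).le)
      set w : Fin n → ℝ := (fun i => (h i : ℝ)) ᵥ* (T k)ᵀ with hw
      have h2 : w ⬝ᵥ w = ∑ i, (h i : ℝ) * (h i : ℝ) := by
        have h3 : w = T k *ᵥ (fun i => (h i : ℝ)) := by
          rw [hw, Matrix.vecMul_transpose]
        rw [h3, Matrix.dotProduct_mulVec, Matrix.vecMul_mulVec, hTT, Matrix.vecMul_one]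
        rfl
      have h3 : (1:ℝ) ≤ ∑ i, (h i : ℝ) * (h i : ℝ) := by
        obtain ⟨i, hi⟩ := Function.ne_iff.1 h0
        have h4 : (1:ℝ) ≤ (h i : ℝ) * (h i : ℝ) := by
          have h5 : 1 ≤ h i * h i := by
            have : h i ≠ 0 := hi
            have := mul_self_pos.2 this
            omega
          exact_mod_cast h5
        refine h4.trans (Finset.single_le_sum (f := fun i => (h i : ℝ) * (h i : ℝ))
          (fun j _ => mul_self_nonneg _) (Finset.mem_univ i))
      have h4 : w ⬝ᵥ w ≤ n * ‖w‖ ^ 2 := by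
        unfold dotProduct
        calc ∑ i, w i * w i ≤ ∑ _i : Fin n, ‖w‖ ^ 2 := by
              refine Finset.sum_le_sum fun i _ => ?_
              have h5 := norm_le_pi_norm w i
              rw [Real.norm_eq_abs] at h5
              rw [← abs_mul_abs_self (w i), sq]
              exact mul_le_mul h5 h5 (abs_nonneg _) (norm_nonneg _)
          _ = n * ‖w‖ ^ 2 := by simp
      have h5 : 1 / (n:ℝ) ≤ ‖w‖ ^ 2 := by
        rw [div_le_iff₀ hn0]
        linarith
      rw [← Real.sqrt_inv]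
      refine Real.sqrt_le_iff.2 ⟨norm_nonneg _, ?_⟩
      rwa [← one_div]
    have h6 : Tendsto (fun k : ℕ => ((k:ℝ) + 1) * (Real.sqrt n)⁻¹) atTop atTop := by
      have : (0:ℝ) < (Real.sqrt n)⁻¹ := by positivity
      exact (tendsto_natCast_atTop_atTop.atTop_add tendsto_const_nhds).atTop_mul_const this
    refine tendsto_atTop_mono (fun k => ?_) h6
    refine le_trans ?_ (hlow k)
    refine mul_le_mul_of_nonneg_right ?_ (by positivity)
    rw [le_inv_comm₀ (by positivity) (hr0 k), ← one_div]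
    exact (hr1 k).le
  have hd := dense_mod hn L hesc (fun k => -(lin (L k) (a k))) (Metric.ball 0 ε) Metric.isOpen_ball
    ⟨0, Metric.mem_ball_self hε⟩ K hK
  obtain ⟨k, x, hx, z, hz⟩ := hd.exists
  have h1 := ha k x hx z
  rw [mem_ball_zero_iff] at hz
  have h2 : r k • lin (T k) (lin (L k) x + -(lin (L k) (a k)) - ivec z) = x - (a k + r k • lin (T k) (ivec z)) := by
    have hinv : ∀ y : Euc n, r k • lin (T k) (lin (L k) y) = y := by
      intro y
      have h3 : lin (L k) y = (r k)⁻¹ • lin (T k)ᵀ y := by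
        unfold lin
        rw [hL]
        simp only [Matrix.smul_mulVec, WithLp.toLp_smul]
      rw [h3, lin_smul, smul_smul, mul_inv_cancel₀ (hr0 k).ne', one_smul]
      unfold lin
      rw [WithLp.ofLp_toLp, Matrix.mulVec_mulVec, hTT', Matrix.one_mulVec]
    have hsub : ∀ u w : Euc n, lin (T k) (u - w) = lin (T k) u - lin (T k) w := by
      intro u w
      rw [sub_eq_add_neg, lin_add, show (-w) = (-1 : ℝ) • w by rw [neg_smul, one_smul], lin_smul,
        neg_smul, one_smul, ← sub_eq_add_neg]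
    rw [← sub_eq_add_neg, hsub, hsub, smul_sub, smul_sub, hinv, hinv]
    abel
  have h3 : dist x (a k + r k • lin (T k) (ivec z)) = r k * ‖lin (L k) x + -(lin (L k) (a k)) - ivec z‖ := by
    rw [dist_eq_norm, ← h2, norm_smul, Real.norm_of_nonneg (hr0 k).le, lin_norm (hT k)]
  rw [h3, mul_comm ε] at h1
  have h4 := le_of_mul_le_mul_left h1 (hr0 k)
  linarith

lemma act_cd (M : Matrix (Fin n) (Fin n) ℤ) (x y : Euc n) (z : Fin n → ℤ) :
    act M x = y + ivec z ↔ ∀ i, KA.ma M (WithLp.ofLp x) i = y i + z i := by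
  constructor
  · intro h i
    have := congrArg (fun w : Euc n => w i) h
    exact this
  · intro h
    ext i
    exact h i

lemma piece_cd (A : Matrix (Fin n) (Fin n) ℤ) (K : Set (Euc n)) (k : ℕ) (z : Fin n → ℤ) :
    KA.piece A (cd K) k z = cd (piece A K k z) := by
  ext y
  constructor
  · rintro ⟨hy, x, hx, h⟩
    exact ⟨hy, WithLp.toLp 2 x, hx, (act_cd _ _ _ _).2 h⟩
  · rintro ⟨hy, x, hx, h⟩
    exact ⟨hy, WithLp.ofLp x, hx, (act_cd _ _ _ _).1 h⟩

lemma kernel_cd (A : Matrix (Fin n) (Fin n) ℤ) (K : Set (Euc n)) :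
    FiniteKernel A K ↔ (range fun p : ℕ × (Fin n → ℤ) => KA.piece A (cd K) p.1 p.2).Finite := by
  have h1 : (range fun p : ℕ × (Fin n → ℤ) => KA.piece A (cd K) p.1 p.2) =
      cd '' (range fun p : ℕ × (Fin n → ℤ) => piece A K p.1 p.2) := by
    rw [← range_comp]
    congr 1
    funext p
    exact piece_cd A K p.1 p.2
  have hinj : Function.Injective (cd : Set (Euc n) → Set (Fin n → ℝ)) := by
    intro S T h
    ext x
    have : (WithLp.ofLp x ∈ cd S) ↔ (WithLp.ofLp x ∈ cd T) := by rw [h]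
    exact this
  rw [h1]
  exact (finite_image_iff hinj.injOn).symm

lemma interior_cd {K : Set (Euc n)} (h : interior K = ∅) : interior (cd K) = ∅ := by
  have h1 : cd K = (EuclideanSpace.equiv (Fin n) ℝ).symm ⁻¹' K := rfl
  rw [h1, ← ContinuousLinearEquiv.coe_toHomeomorph, ← Homeomorph.preimage_interior, h, preimage_empty]

theorem automatic (hn : 1 ≤ n) (A : Matrix (Fin n) (Fin n) ℤ) (hA : Ergodic A) (K : Set (Euc n))
    (hK : IsClosed K) (hf : FiniteKernel A K) : (interior K).Nonempty ∨ ThinOffCone K := by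
  by_cases hi : (interior K).Nonempty
  · exact Or.inl hi
  right
  rw [not_nonempty_iff_eq_empty] at hi
  obtain ⟨G, hG, hne, hgap⟩ := KA.auto_gap hA.1 (cd_closed hK) (interior_cd hi) ((kernel_cd A K).1 hf)
  obtain ⟨X, h1, h2, h3⟩ := KA.porous hn (fun k => (A ^ k).map (Int.cast : ℤ → ℝ))
    (KA.esc_of_erg hA) (fun _ => 0) hG hne (cd K)
    (Eventually.frequently (Eventually.of_forall fun k x hx z => by simpa using! hgap k x hx z))
  exact thin_of K X h1 h2 h3

/-- **Main theorem.** -/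
theorem result (n : ℕ) (hn : 1 ≤ n) :
    -- (1) sets which are porous along a lattice under infinitely many members of an escaping sequence
    -- of affine maps are thin along all lines with directions off a small cone
    (∀ L : ℕ → Matrix (Fin n) (Fin n) ℝ, RowsEscape L → ∀ b : ℕ → Euc n,
      ∀ G : Set (Euc n), IsOpen G → G.Nonempty → ∀ K : Set (Euc n),
        (∃ᶠ k in atTop, ∀ x ∈ K, ∀ z : Fin n → ℤ, lin (L k) x + b k - ivec z ∉ G) → ThinOffCone K) ∧
    -- (2) such sets contain no Kakeya set: there is a unit vector all of whose parallels are thin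
    (∀ K : Set (Euc n), ThinOffCone K → (∃ ω : Euc n, ‖ω‖ = 1 ∧ ThinAlong K ω) ∧ ¬ IsKakeya K) ∧
    -- (3) hence the images `L_k K + b_k` of a Kakeya set become dense modulo `ℤⁿ`
    (∀ L : ℕ → Matrix (Fin n) (Fin n) ℝ, RowsEscape L → ∀ b : ℕ → Euc n,
      ∀ G : Set (Euc n), IsOpen G → G.Nonempty → ∀ K : Set (Euc n), IsKakeya K →
        ∀ᶠ k in atTop, ∃ x ∈ K, ∃ z : Fin n → ℤ, lin (L k) x + b k - ivec z ∈ G) ∧
    -- (4) a Kakeya set meets the `ε r`-neighbourhood of every isometric copy of `r ℤⁿ`, for all small `r`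
    (∀ K : Set (Euc n), IsKakeya K → ∀ ε : ℝ, 0 < ε → ∃ r₀ : ℝ, 0 < r₀ ∧ ∀ r : ℝ, 0 < r → r < r₀ →
      ∀ T ∈ Matrix.orthogonalGroup (Fin n) ℝ, ∀ a : Euc n,
        ∃ x ∈ K, ∃ z : Fin n → ℤ, dist x (a + r • lin T (ivec z)) < ε * r) ∧
    -- (5) closed sets with finite `A`-kernel have interior points or are thin off a small cone
    (∀ A : Matrix (Fin n) (Fin n) ℤ, Ergodic A → ∀ K : Set (Euc n), IsClosed K → FiniteKernel A K →
      (interior K).Nonempty ∨ ThinOffCone K) ∧
    -- (6) the Kakeya conjecture for sets with finite `A`-kernel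
    (∀ A : Matrix (Fin n) (Fin n) ℤ, Ergodic A → ∀ K : Set (Euc n), IsKakeya K → FiniteKernel A K →
      (interior K).Nonempty ∧ dimH K = n ∧ 0 < volume K) ∧
    -- (7) proper closed sets of the torus which are mapped into themselves by `A`
    (∀ A : Matrix (Fin n) (Fin n) ℤ, Ergodic A → ∀ F : Set (Euc n), IsClosed F → F ≠ univ →
      (∀ x ∈ F, ∀ z : Fin n → ℤ, x + ivec z ∈ F) → (∀ x ∈ F, act A x ∈ F) → ThinOffCone F) ∧
    -- (8) members of integral graph-directed self-affine families have finite kernels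
    (∀ A : Matrix (Fin n) (Fin n) ℤ, ∀ (ι : Type) [Finite ι] (K : ι → Set (Euc n))
      (D : ι → ι → Set (Fin n → ℤ)), (∀ i, IsCompact (K i)) →
      (∀ i, act A '' K i = ⋃ j, ⋃ d ∈ D i j, (fun x => x + ivec d) '' K j) →
      ∀ i, FiniteKernel A (K i)) := by
  refine ⟨fun L hL b G hG hne K hK => porosity hn L hL b G hG hne K hK,
    fun K hK => ⟨thin_unit hn hK, not_kakeya hn hK⟩,
    fun L hL b G hG hne K hK => dense_mod hn L hL b G hG hne K hK,
    fun K hK ε hε => lattice_copies hn K hK ε hε,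
    fun A hA K hK hf => automatic hn A hA K hK hf, ?_, ?_, ?_⟩
  · intro A hA K hK hf
    rcases automatic hn A hA K hK.1.isClosed hf with h | h
    · refine ⟨h, ?_, ?_⟩
      · rw [Real.dimH_of_nonempty_interior h, finrank_euclideanSpace, Fintype.card_fin]
      · exact (isOpen_interior.measure_pos volume h).trans_le (measure_mono interior_subset)
    · exact absurd hK (not_kakeya hn h)
  · intro A hA F hF hFu hz hAF
    have hpow : ∀ k, ∀ x ∈ F, act (A ^ k) x ∈ F := by
      intro k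
      induction k with
      | zero =>
        intro x hx
        have : act (A ^ 0) x = x := by
          rw [pow_zero]
          ext i
          show (KA.ma 1 (WithLp.ofLp x)) i = x i
          rw [KA.ma_one]
        rw [this]; exact hx
      | succ k ih =>
        intro x hx
        have : act (A ^ (k+1)) x = act A (act (A ^ k) x) := by
          rw [pow_succ']
          ext i
          show (KA.ma (A * A ^ k) (WithLp.ofLp x)) i = _
          rw [KA.ma_mul]
          rfl
        rw [this]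
        exact hAF _ (ih x hx)
    refine porosity hn (fun k => (A ^ k).map (Int.cast : ℤ → ℝ)) (KA.esc_of_erg hA) (fun _ => 0) Fᶜ
      hF.isOpen_compl ?_ F ?_
    · exact nonempty_compl.2 hFu
    · refine Eventually.frequently (Eventually.of_forall fun k x hx z hcon => ?_)
      refine hcon ?_
      have h1 := hz _ (hpow k x hx) (-z)
      have h2 : act (A ^ k) x + ivec (-z) = lin ((A ^ k).map (Int.cast : ℤ → ℝ)) x + 0 - ivec z := by
        rw [add_zero]
        ext i
        show act (A ^ k) x i + (((-z) i : ℤ) : ℝ) = act (A ^ k) x i - (z i : ℝ)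
        rw [Pi.neg_apply]
        push_cast
        ring
      rwa [h2] at h1
  · intro A ι _ K D hc hK i
    rw [kernel_cd]
    refine KA.graph_finite (A := A) (K := fun i => cd (K i)) (D := D) (fun j => ?_) (fun j => ?_) i
    · have h1 : cd (K j) = (EuclideanSpace.equiv (Fin n) ℝ) '' (K j) := by
        ext x
        constructor
        · intro hx
          exact ⟨WithLp.toLp 2 x, hx, rfl⟩
        · rintro ⟨y, hy, rfl⟩
          exact hy
      rw [h1]
      exact ((hc j).image (EuclideanSpace.equiv (Fin n) ℝ).continuous).isBounded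
    · have h2 := hK j
      ext x
      have h3 : x ∈ KA.ma A '' cd (K j) ↔ WithLp.toLp 2 x ∈ act A '' K j := by
        constructor
        · rintro ⟨y, hy, rfl⟩
          exact ⟨WithLp.toLp 2 y, hy, rfl⟩
        · rintro ⟨y, hy, he⟩
          refine ⟨WithLp.ofLp y, hy, ?_⟩
          exact congrArg WithLp.ofLp he
      rw [h3, h2]
      simp only [mem_iUnion]
      constructor
      · rintro ⟨l, d, hd, y, hy, he⟩
        refine ⟨l, d, hd, WithLp.ofLp y, hy, ?_⟩
        exact congrArg WithLp.ofLp he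
      · rintro ⟨l, d, hd, y, hy, he⟩
        refine ⟨l, d, hd, WithLp.toLp 2 y, hy, ?_⟩
        exact congrArg (WithLp.toLp 2) he

end

end Pool.Agent.Results.MP_b1773a_an.LatticePorosity
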