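import Pool.Agent.W5h51.KH.Main

/-!
# MP_b1773a_an: the arithmetic Kakeya conjecture implies the Kakeya conjecture for the Hausdorff dimension

`SD c` is the sums-differences inequality with exponent `c` for some finite set of rational slopes.
-/

set_option autoImplicit false

open MeasureTheory

namespace Pool.Agent.Results.MP_b1773a_an.SumsDifferencesHausdorff

/-- Let `c ≥ 1` and suppose that the sums-differences inequality holds with the exponent `c` for some
finite set of slopes. Then for `n ≥ 1` every set `K ⊆ ℝ^n` which contains a nondegenerate segment in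
every direction of a set `U ⊆ S^(n-1)` of directions of positive outer surface measure has Hausdorff
dimension at least `1 + (n - 1) / c`. In particular, if the inequality holds for every exponent `c > 1`
(the arithmetic Kakeya conjecture), then all these sets have Hausdorff dimension `n`. -/
theorem result :
    (∀ c : ℝ, 1 ≤ c → Pool.Agent.W46.KK.SD c → ∀ n : ℕ, 1 ≤ n →
      ∀ U : Set (Metric.sphere (0 : EuclideanSpace ℝ (Fin n)) 1),
      (volume : Measure (EuclideanSpace ℝ (Fin n))).toSphere U ≠ 0 →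
      ∀ K : Set (EuclideanSpace ℝ (Fin n)),
      (∀ e ∈ U, ∃ (a : EuclideanSpace ℝ (Fin n)) (r : ℝ), 0 < r ∧
        ∀ t ∈ Set.Icc (0 : ℝ) r, a + t • (e : EuclideanSpace ℝ (Fin n)) ∈ K) →
      ENNReal.ofReal (1 + ((n : ℝ) - 1) / c) ≤ dimH K) ∧
    ((∀ c : ℝ, 1 < c → Pool.Agent.W46.KK.SD c) → ∀ n : ℕ, 1 ≤ n →
      ∀ U : Set (Metric.sphere (0 : EuclideanSpace ℝ (Fin n)) 1),
      (volume : Measure (EuclideanSpace ℝ (Fin n))).toSphere U ≠ 0 →
      ∀ K : Set (EuclideanSpace ℝ (Fin n)),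
      (∀ e ∈ U, ∃ (a : EuclideanSpace ℝ (Fin n)) (r : ℝ), 0 < r ∧
        ∀ t ∈ Set.Icc (0 : ℝ) r, a + t • (e : EuclideanSpace ℝ (Fin n)) ∈ K) →
      dimH K = n) := by
  have hA : ∀ c : ℝ, 1 ≤ c → Pool.Agent.W46.KK.SD c → ∀ n : ℕ, 1 ≤ n →
      ∀ U : Set (Metric.sphere (0 : EuclideanSpace ℝ (Fin n)) 1),
      (volume : Measure (EuclideanSpace ℝ (Fin n))).toSphere U ≠ 0 →
      ∀ K : Set (EuclideanSpace ℝ (Fin n)),
      (∀ e ∈ U, ∃ (a : EuclideanSpace ℝ (Fin n)) (r : ℝ), 0 < r ∧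
        ∀ t ∈ Set.Icc (0 : ℝ) r, a + t • (e : EuclideanSpace ℝ (Fin n)) ∈ K) →
      ENNReal.ofReal (1 + ((n : ℝ) - 1) / c) ≤ dimH K := by
    intro c hc ⟨S, hS⟩ n hn U hU K hK
    obtain ⟨d, rfl⟩ : ∃ d, n = d + 1 := ⟨n - 1, by omega⟩
    have e1 : (((d + 1 : ℕ) : ℝ) - 1) = d := by push_cast; ring
    rw [e1]
    exact Pool.Agent.W5h51.KH.mainH hS hc d U K hK hU
  refine ⟨hA, ?_⟩
  intro hall n hn U hU K hK
  apply le_antisymm
  · calc dimH K ≤ dimH (Set.univ : Set (EuclideanSpace ℝ (Fin n))) := dimH_mono (Set.subset_univ K)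
      _ = n := by
        rw [Real.dimH_univ_eq_finrank, finrank_euclideanSpace, Fintype.card_fin]
  · by_contra hcon
    rw [not_le] at hcon
    have hfin : dimH K ≠ ⊤ := ne_top_of_lt hcon
    obtain ⟨x, hx⟩ : ∃ x : ℝ, x = (dimH K).toReal := ⟨_, rfl⟩
    have hx0 : 0 ≤ x := by rw [hx]; exact ENNReal.toReal_nonneg
    have hxn : x < n := by
      rw [hx]
      have := (ENNReal.toReal_lt_toReal hfin (ENNReal.natCast_ne_top n)).2 hcon
      simpa using this
    have hn1 : (1 : ℝ) ≤ n := by exact_mod_cast hn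
    obtain ⟨ε, hε⟩ : ∃ ε : ℝ, ε = (n - x) / (2 * n) := ⟨_, rfl⟩
    have hε0 : 0 < ε := by rw [hε]; apply div_pos <;> linarith
    have h1 := hA (1 + ε) (by linarith) (hall _ (by linarith)) n hn U hU K hK
    have h2 : 1 + ((n : ℝ) - 1) / (1 + ε) ≤ x := by
      have h3 := (ENNReal.ofReal_le_iff_le_toReal hfin).1 h1
      rw [hx]
      exact h3
    have h4 : ((n : ℝ) - 1) / (1 + ε) ≤ x - 1 := by linarith
    rw [div_le_iff₀ (by linarith)] at h4
    have h5 : ε * (2 * n) = n - x := by rw [hε]; field_simp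
    nlinarith

end Pool.Agent.Results.MP_b1773a_an.SumsDifferencesHausdorff
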